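import Pool.Agent.TH594.HR.Rc
import Pool.Agent.TH594.HE.Ex

/-!
# The pointwise inequality under an upper Ricci bound
-/

set_option autoImplicit false

namespace Pool.Agent.TH594.HR

open Finset Pool.Agent.TH594.HP Pool.Agent.TH594.HE
open Pool.Agent.W666.GB (AlgCurv gbc scal roundGB unitCurv CurvField)
open Pool.Agent.W669.HD (T4 gm cp negT addT unitT OpNonneg BiForm gbc_eq cp_unit unit_bi unit_curv
  add_curv)

/-- the bound of the theorem -/
noncomputable def phi (m r y : ℝ) : ℝ :=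
  1 - y + (1 - (m - 2) * r / (3 * (2 * m - 5))) * (y * (m * y - r)) / (2 * (m - 1))

/-- its minimum -/
noncomputable def psi (m x : ℝ) : ℝ :=
  1 - x + (m - 1) / (2 * m) * x ^ 2 * (1 - (m - 2) * (2 * m - 1) / (3 * m * (2 * m - 5)) * x)

theorem beta_eq {m x : ℝ} (hm : 3 ≤ m) :
    (m - 2) * ((2 * m - 1) * x / m) / (3 * (2 * m - 5)) =
      (m - 2) * (2 * m - 1) / (3 * m * (2 * m - 5)) * x := by
  have d5 : m * 2 - 5 ≠ 0 := by linarith
  have dm : m ≠ 0 := by linarith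
  rw [mul_comm 2 m]
  field_simp

theorem b2_ge {m : ℝ} (hm : 3 ≤ m) : 1 / 3 ≤ (m - 2) * (2 * m - 1) / (3 * m * (2 * m - 5)) := by
  have d5 : 0 < 2 * m - 5 := by linarith
  have dm : 0 < m := by linarith
  rw [le_div_iff₀ (by positivity)]
  nlinarith

theorem b2_le {m : ℝ} (hm : 3 ≤ m) : (m - 2) * (2 * m - 1) / (3 * m * (2 * m - 5)) ≤ 5 / 9 := by
  have d5 : 0 < 2 * m - 5 := by linarith
  have dm : 0 < m := by linarith
  rw [div_le_iff₀ (by positivity)]
  nlinarith [mul_nonneg (by linarith : 0 ≤ m - 3) (by linarith : 0 ≤ m - 1 / 2)]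

theorem b2_le4 {m : ℝ} (hm : 4 ≤ m) : (m - 2) * (2 * m - 1) / (3 * m * (2 * m - 5)) ≤ 7 / 18 := by
  have d5 : 0 < 2 * m - 5 := by linarith
  have dm : 0 < m := by linarith
  rw [div_le_iff₀ (by positivity)]
  nlinarith [mul_nonneg (by linarith : 0 ≤ m - 4) (by linarith : 0 ≤ 2 * m + 3)]

theorem phi_psi {m x : ℝ} (hm : 3 ≤ m) : phi m ((2 * m - 1) * x / m) x = psi m x := by
  unfold phi psi
  rw [beta_eq hm]
  have dm : m ≠ 0 := by linarith
  have d1 : m - 1 ≠ 0 := by linarith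
  have e : x * (m * x - (2 * m - 1) * x / m) = (m - 1) ^ 2 * x ^ 2 / m := by
    field_simp
    ring
  rw [e]
  set β := 1 - (m - 2) * (2 * m - 1) / (3 * m * (2 * m - 5)) * x
  field_simp

theorem psi_le_phi {m x y : ℝ} (hm : 3 ≤ m) (hx : x ≤ 8 / 5) (hy : 0 ≤ y) (hyx : y ≤ x) :
    psi m x ≤ phi m ((2 * m - 1) * x / m) y := by
  rw [← phi_psi hm]
  unfold phi
  rw [beta_eq hm]
  have b1 := b2_ge hm
  have b2 := b2_le hm
  set b := (m - 2) * (2 * m - 1) / (3 * m * (2 * m - 5))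
  have dm : 0 < m := by linarith
  have d1 : 0 < m - 1 := by linarith
  have hx0 : 0 ≤ x := hy.trans hyx
  set β := 1 - b * x with hβ
  have hβ0 : 0 ≤ β := by
    rw [hβ]
    nlinarith
  have hβ1 : β * x ≤ 3 / 4 := by
    rw [hβ]
    nlinarith [sq_nonneg (x - 3 / 2), mul_nonneg (sub_nonneg.2 b1) (mul_nonneg hx0 hx0)]
  obtain ⟨r, hr⟩ : ∃ r, r = (2 * m - 1) * x / m := ⟨_, rfl⟩
  have hrm : m * r = (2 * m - 1) * x := by rw [hr]; field_simp
  rw [← hr]
  have key : β * (m * (x + y) - r) ≤ 2 * (m - 1) := by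
    have h1 : β * (m * (x + y) - r) ≤ β * (m * (x + x) - r) :=
      mul_le_mul_of_nonneg_left (by nlinarith) hβ0
    refine h1.trans ?_
    have h2 : m * (β * (m * (x + x) - r)) = (2 * m ^ 2 - 2 * m + 1) * (β * x) := by
      linear_combination (-β) * hrm
    have h3 : (2 * m ^ 2 - 2 * m + 1) * (β * x) ≤ (2 * m ^ 2 - 2 * m + 1) * (3 / 4) :=
      mul_le_mul_of_nonneg_left hβ1 (by nlinarith)
    have h4 : m * (β * (m * (x + x) - r)) ≤ m * (2 * (m - 1)) := by
      rw [h2]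
      refine h3.trans ?_
      nlinarith
    exact le_of_mul_le_mul_left h4 dm
  have e : (1 - y + β * (y * (m * y - r)) / (2 * (m - 1))) -
      (1 - x + β * (x * (m * x - r)) / (2 * (m - 1))) =
      (x - y) * (2 * (m - 1) - β * (m * (x + y) - r)) / (2 * (m - 1)) := by
    field_simp
    ring
  have h5 : 0 ≤ (x - y) * (2 * (m - 1) - β * (m * (x + y) - r)) / (2 * (m - 1)) := by
    refine div_nonneg (mul_nonneg (by linarith) (by linarith)) (by linarith)
  linarith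

theorem psi_three {x : ℝ} (h : x ≤ 15 / 13) : 0 < psi 3 x := by
  have e : psi 3 x = 1 - x + 1 / 3 * x ^ 2 - 5 / 27 * x ^ 3 := by
    unfold psi
    norm_num
    ring
  have e2 : 1 - x + 1 / 3 * x ^ 2 - 5 / 27 * x ^ 3 =
      (1 - 15 / 13 + 1 / 3 * (15 / 13) ^ 2 - 5 / 27 * (15 / 13) ^ 3) +
      (15 / 13 - x) * (1 - 1 / 3 * (x + 15 / 13) +
        5 / 27 * (x ^ 2 + x * (15 / 13) + (15 / 13) ^ 2)) := by ring
  rw [e, e2]
  have p1 : (0 : ℝ) < 1 - 15 / 13 + 1 / 3 * (15 / 13) ^ 2 - 5 / 27 * (15 / 13) ^ 3 := by norm_num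
  have p2 : 0 ≤ (15 / 13 - x) * (1 - 1 / 3 * (x + 15 / 13) +
        5 / 27 * (x ^ 2 + x * (15 / 13) + (15 / 13) ^ 2)) := by
    refine mul_nonneg (by linarith) ?_
    nlinarith [sq_nonneg (x - 1 / 3)]
  linarith

theorem psi_four {m x : ℝ} (hm : 4 ≤ m) (h : x ≤ 131 / 100) : 0 < psi m x := by
  rcases le_or_gt x 0 with h0 | h0
  · unfold psi
    have b1 := b2_ge (by linarith : 3 ≤ m)
    set b := (m - 2) * (2 * m - 1) / (3 * m * (2 * m - 5))
    have h1 : 0 ≤ 1 - b * x := by nlinarith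
    have h2 : 0 ≤ (m - 1) / (2 * m) := div_nonneg (by linarith) (by linarith)
    have h3 : 0 ≤ (m - 1) / (2 * m) * x ^ 2 * (1 - b * x) := by positivity
    linarith
  · unfold psi
    have b2 := b2_le4 hm
    set b := (m - 2) * (2 * m - 1) / (3 * m * (2 * m - 5))
    have h1 : 1 - 7 / 18 * x ≤ 1 - b * x := by nlinarith
    have h1' : 0 ≤ 1 - 7 / 18 * x := by linarith
    have h2 : 3 / 8 ≤ (m - 1) / (2 * m) := by
      rw [le_div_iff₀ (by linarith)]
      linarith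
    have h3 : 3 / 8 * x ^ 2 * (1 - 7 / 18 * x) ≤ (m - 1) / (2 * m) * x ^ 2 * (1 - b * x) := by
      refine mul_le_mul (mul_le_mul_of_nonneg_right h2 (sq_nonneg x)) h1 h1' ?_
      have : 0 ≤ (m - 1) / (2 * m) := div_nonneg (by linarith) (by linarith)
      positivity
    have e2 : 1 - x + 3 / 8 * x ^ 2 * (1 - 7 / 18 * x) =
        (1 - 131 / 100 + 3 / 8 * (131 / 100) ^ 2 * (1 - 7 / 18 * (131 / 100))) +
        (131 / 100 - x) * (1 - 3 / 8 * (x + 131 / 100) +
          7 / 48 * (x ^ 2 + x * (131 / 100) + (131 / 100) ^ 2)) := by ring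
    have p1 : (0 : ℝ) < 1 - 131 / 100 + 3 / 8 * (131 / 100) ^ 2 * (1 - 7 / 18 * (131 / 100)) := by
      norm_num
    have p2 : 0 ≤ (131 / 100 - x) * (1 - 3 / 8 * (x + 131 / 100) +
          7 / 48 * (x ^ 2 + x * (131 / 100) + (131 / 100) ^ 2)) := by
      refine mul_nonneg (by linarith) ?_
      nlinarith [sq_nonneg (x - 1 / 3)]
    linarith

section family

variable {m : ℕ} {K : Type*} [Fintype K] {ν : K → Matrix (Fin m × Bool) (Fin m × Bool) ℝ}
  {ρ : ℝ}

theorem TT_le' (h : BiN (nu ν)) (hr : ∀ j l, j ≠ l → rc (nu ν) j l = 0)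
    (hρ : ∀ j, rc (nu ν) j j ≤ ρ) {c : ℝ} (hc : 0 < c) {j i : ℕ} (hji : j + (i + 1) = m) :
    TT (nu ν) c (j + 1) * (c * (j + 1) * (2 * (i + 1) - 1)) ≤
      ρ * (i + 1) * TT (nu ν) c j := by
  have h1 := w_succ_rho h hr hρ j
  rw [card_J] at h1
  have h2 : (j : ℝ) + (i + 1) = m := by exact_mod_cast hji
  rw [TT_eq, TT_eq, GG_succ c hji]
  have hg : 0 < GG m c (j + 1) := GG_pos hc (by omega)
  have h3 : (2 * (ρ * (2 * m - 2 * j))) = 4 * ρ * (i + 1) := by
    rw [← h2]; ring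
  rw [h3] at h1
  have h4 : 0 ≤ GG m c (j + 1) * (c * (j + 1) * (2 * (i + 1) - 1)) := by
    have : (0 : ℝ) ≤ 2 * (i + 1) - 1 := by
      have : (0 : ℝ) ≤ i := Nat.cast_nonneg i
      linarith
    positivity
  have h5 := mul_le_mul_of_nonneg_left h1 h4
  linarith

theorem TT_mono' (h : BiN (nu ν)) (hr : ∀ j l, j ≠ l → rc (nu ν) j l = 0)
    (hρ : ∀ j, rc (nu ν) j j ≤ ρ) {c : ℝ} (hc : 0 < c) (hρc : ρ ≤ 16 / 5 * c) (hm : 4 ≤ m)
    {j i : ℕ} (hj : 2 ≤ j) (hji : j + (i + 1) = m) : TT (nu ν) c (j + 1) ≤ TT (nu ν) c j := by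
  have h1 := TT_le' h hr hρ hc hji
  have t0 := TT_nonneg (nu ν) hc.le j
  have t1 := TT_nonneg (nu ν) hc.le (j + 1)
  have hi0 : (0 : ℝ) ≤ i := Nat.cast_nonneg i
  have hj2 : (2 : ℝ) ≤ j := by exact_mod_cast hj
  have h2 : 16 / 5 * ((i : ℝ) + 1) ≤ (j + 1) * (2 * (i + 1) - 1) := by
    rcases Nat.lt_or_ge j 3 with h3 | h3
    · have hj2' : j = 2 := by omega
      subst hj2'
      have : (1 : ℝ) ≤ i := by
        have : 1 ≤ i := by omega
        exact_mod_cast this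
      push_cast
      linarith
    · have : (3 : ℝ) ≤ j := by exact_mod_cast h3
      nlinarith
  have h3 : ρ * (i + 1) * TT (nu ν) c j ≤ 16 / 5 * c * (i + 1) * TT (nu ν) c j := by
    refine mul_le_mul_of_nonneg_right ?_ t0
    exact mul_le_mul_of_nonneg_right hρc (by linarith)
  have h5 : c * (16 / 5 * (i + 1)) * TT (nu ν) c j ≤
      c * ((j + 1) * (2 * (i + 1) - 1)) * TT (nu ν) c j := by
    refine mul_le_mul_of_nonneg_right (mul_le_mul_of_nonneg_left h2 hc.le) t0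
  have h6 : 0 < c * ((j + 1) * (2 * (i + 1) - 1)) := by
    have : (0 : ℝ) < 2 * (i + 1) - 1 := by linarith
    positivity
  have h7 : c * ((j + 1) * (2 * (i + 1) - 1)) * TT (nu ν) c (j + 1) ≤
      c * ((j + 1) * (2 * (i + 1) - 1)) * TT (nu ν) c j := by linarith
  exact le_of_mul_le_mul_left h7 h6

/-- **lower bound of the alternating sum** -/
theorem F_ge_phi (h : BiN (nu ν)) (hr : ∀ j l, j ≠ l → rc (nu ν) j l = 0)
    (hρ : ∀ j, rc (nu ν) j j ≤ ρ) {c : ℝ} (hc : 0 < c) (hm : 3 ≤ m)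
    (hx : m * ρ ≤ 8 / 5 * c * (2 * m - 1)) :
    TT (nu ν) c 0 * phi m (ρ / c) (tt (nu ν) / (2 * c * (2 * m - 1))) ≤
      F (TT (nu ν) c) m 0 := by
  have hmR : (3 : ℝ) ≤ m := by exact_mod_cast hm
  have d1 : (0 : ℝ) < 2 * m - 1 := by linarith
  have d3 : (0 : ℝ) < 2 * m - 3 := by linarith
  have d5 : (0 : ℝ) < 2 * m - 5 := by linarith
  have dm1 : (0 : ℝ) < m - 1 := by linarith
  have g0 : GG m c 0 = GG m c 2 * (32 * c ^ 2 * (2 * m - 1) * (2 * m - 3)) := by
    have a0 := GG_succ (m := m) c (j := 0) (i := m - 1) (by omega)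
    have a1 := GG_succ (m := m) c (j := 1) (i := m - 2) (by omega)
    rw [a0, a1]
    have e1 : ((m - 1 : ℕ) : ℝ) = m - 1 := by
      rw [Nat.cast_sub (by omega)]; norm_num
    have e2 : ((m - 2 : ℕ) : ℝ) = m - 2 := by
      rw [Nat.cast_sub (by omega)]; norm_num
    rw [e1, e2]
    push_cast
    ring
  have gp : 0 < GG m c 2 := GG_pos hc (by omega)
  have t0 : TT (nu ν) c 0 = GG m c 0 := by rw [TT_eq, w_zero, mul_one]
  have t00 : 0 < TT (nu ν) c 0 := by rw [t0]; exact GG_pos hc (Nat.zero_le m)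
  set S := tt (nu ν) with hS
  set y := S / (2 * c * (2 * m - 1)) with hy
  set r := ρ / c with hrd
  have t1 : TT (nu ν) c 1 = y * TT (nu ν) c 0 := by
    have h1 := TT_one (ν := nu ν) h.anti c (by omega : 1 ≤ m)
    rw [hy]
    field_simp
    linarith
  have t2 : TT (nu ν) c 0 * (y * (m * y - r)) / (2 * (m - 1)) ≤ TT (nu ν) c 2 := by
    rw [div_le_iff₀ (by linarith), t0, g0, TT_eq]
    have h1 := w2_low h hr hρ hm
    rw [← hS] at h1
    have e1 : GG m c 2 * (32 * c ^ 2 * (2 * m - 1) * (2 * m - 3)) * (y * (m * y - r)) *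
        (2 * m - 1) = GG m c 2 * 2 * (4 * (2 * m - 3) * S * (m * S - 2 * (2 * m - 1) * ρ)) := by
      rw [hy, hrd]
      obtain ⟨D, hD⟩ : ∃ D : ℝ, D = 2 * m - 1 := ⟨_, rfl⟩
      have hD0 : D ≠ 0 := by rw [hD]; exact d1.ne'
      rw [← hD]
      field_simp
      ring
    have h2 := mul_le_mul_of_nonneg_left h1 (by positivity : 0 ≤ GG m c 2 * 2)
    rw [← e1] at h2
    have e2 : GG m c 2 * 2 * ((m - 1) * (2 * m - 1) * w (nu ν) 2) =
        GG m c 2 * w (nu ν) 2 * (2 * (m - 1)) * (2 * m - 1) := by ring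
    rw [e2] at h2
    exact le_of_mul_le_mul_right h2 d1
  have t3 : TT (nu ν) c 3 ≤ (m - 2) * r / (3 * (2 * m - 5)) * TT (nu ν) c 2 := by
    have h1 := TT_le' h hr hρ hc (j := 2) (i := m - 3) (by omega)
    have e : ((m - 3 : ℕ) : ℝ) = m - 3 := by
      rw [Nat.cast_sub (by omega)]; norm_num
    rw [e] at h1
    push_cast at h1
    have h2 : TT (nu ν) c 3 * (3 * c * (2 * m - 5)) ≤ ρ * (m - 2) * TT (nu ν) c 2 := by
      have e3 : TT (nu ν) c (2 + 1) = TT (nu ν) c 3 := rfl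
      rw [e3] at h1
      linarith
    rw [div_mul_eq_mul_div, le_div_iff₀ (by positivity)]
    have h3 : TT (nu ν) c 3 * (3 * (2 * m - 5)) * c ≤ (m - 2) * r * TT (nu ν) c 2 * c := by
      have e4 : (m - 2) * r * TT (nu ν) c 2 * c = ρ * (m - 2) * TT (nu ν) c 2 := by
        rw [hrd]; field_simp
      rw [e4]
      linarith
    exact le_of_mul_le_mul_right h3 hc
  have hb : (m - 2) * r / (3 * (2 * m - 5)) ≤ 1 := by
    rw [div_le_one (by positivity)]
    have h1 : m * r ≤ 8 / 5 * (2 * m - 1) := by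
      rw [hrd, ← mul_div_assoc, div_le_iff₀ hc]
      linarith
    have h2 : m * ((m - 2) * r) ≤ m * (3 * (2 * m - 5)) := by
      have h3 : (m - 2) * (m * r) ≤ (m - 2) * (8 / 5 * (2 * m - 1)) :=
        mul_le_mul_of_nonneg_left h1 (by linarith)
      nlinarith [mul_nonneg (by linarith : (0 : ℝ) ≤ m - 3) (by linarith : (0 : ℝ) ≤ m - 3)]
    exact le_of_mul_le_mul_left h2 (by linarith)
  have hF : TT (nu ν) c 0 - TT (nu ν) c 1 + TT (nu ν) c 2 - TT (nu ν) c 3 ≤
      F (TT (nu ν) c) m 0 := by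
    rcases Nat.lt_or_ge m 4 with h4 | h4
    · have hm3 : m = 3 := by omega
      subst hm3
      rw [F_thr]
    · have hρ' : ρ ≤ 16 / 5 * c := by
        have h5 : m * ρ ≤ m * (16 / 5 * c) := by nlinarith
        exact le_of_mul_le_mul_left h5 (by linarith)
      rw [F_four _ h4]
      have := (tail (TT (nu ν) c) (TT_nonneg (nu ν) hc.le) (m - 4) 4 (by norm_num)
        (fun j hj hj2 => TT_mono' h hr hρ hc hρ' h4 (i := m - j - 1) hj (by omega))).1
      linarith
  refine le_trans ?_ hF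
  have h6 : (1 - (m - 2) * r / (3 * (2 * m - 5))) *
      (TT (nu ν) c 0 * (y * (m * y - r)) / (2 * (m - 1))) ≤
      (1 - (m - 2) * r / (3 * (2 * m - 5))) * TT (nu ν) c 2 :=
    mul_le_mul_of_nonneg_left t2 (by linarith)
  rw [t1]
  unfold phi
  have e7 : TT (nu ν) c 0 * (1 - y + (1 - (m - 2) * r / (3 * (2 * m - 5))) *
      (y * (m * y - r)) / (2 * (m - 1))) = TT (nu ν) c 0 - y * TT (nu ν) c 0 +
      (1 - (m - 2) * r / (3 * (2 * m - 5))) *
      (TT (nu ν) c 0 * (y * (m * y - r)) / (2 * (m - 1))) := by ring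
  rw [e7]
  linarith

end family

section pointwise

variable {m : ℕ} {V : Type} [NormedAddCommGroup V] [InnerProductSpace ℝ V]

/-- the Ricci curvature of `R` in the direction of `x` -/
noncomputable def ric (e : OrthonormalBasis (Fin m × Bool) ℝ V) (R : V → V → V → V → ℝ)
    (x : V) : ℝ := ∑ i, R (e i) x (e i) x

/-- reduction to families of two-forms -/
theorem reduceR (e : OrthonormalBasis (Fin m × Bool) ℝ V) {R : V → V → V → V → ℝ}
    (hR : AlgCurv R) {c κ : ℝ} (h : OpNonneg (addT R fun x y z w => c * unitT x y z w))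
    (hK : ∀ x : V, ric e R x ≤ -((2 * m - 1) * κ) * ‖x‖ ^ 2) :
    ∃ (n : ℕ) (ν : Fin n → Matrix (Fin m × Bool) (Fin m × Bool) ℝ), BiN (nu ν) ∧
      (∀ j l, j ≠ l → rc (nu ν) j l = 0) ∧ (∀ j, rc (nu ν) j j ≤ (2 * m - 1) * (c - κ)) ∧
      tt (nu ν) = scal e R + c * (2 * m * (2 * m - 1)) ∧
      (-1) ^ m * gbc e R = 1 / ((8 * Real.pi) ^ m * m.factorial) *
        gm (fun _ : Fin m => (fun i j k l =>
          c * unitCurv i j k l - ∑ a, nu ν a i j * nu ν a k l : T4 m)) := by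
  set E : V → V → V → V → ℝ := addT R fun x y z w => c * unitT x y z w with hEdef
  have hE : AlgCurv E := add_curv hR (unit_curv c)
  obtain ⟨e', he⟩ := exists_ricci_basis e hE
  have hB : BiForm E := ⟨hE.add, hE.smul, hE.anti, hE.pair⟩
  obtain ⟨n, ν, hν, hEν⟩ := hB.squares (fun i => e' i) h
  have hEE : ∀ i j k l, EE ν i j k l = E (e' i) (e' j) (e' k) (e' l) := fun i j k l =>
    (hEν i j k l).symm
  refine ⟨n, ν, ⟨hν, ?_⟩, ?_, ?_, ?_, ?_⟩
  · intro i j k l
    show EE ν i j k l + EE ν j k i l + EE ν k i j l = 0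
    rw [hEE, hEE, hEE]
    exact hE.bianchi _ _ _ _
  · intro j l hjl
    show rc ν j l = 0
    unfold rc
    simp only [hEE]
    exact he j l hjl
  · intro j
    show rc ν j j ≤ _
    unfold rc
    simp only [hEE]
    rw [← ric_basis e e' hE (e' j) (e' j)]
    have h1 := hK (e' j)
    unfold ric at h1
    have h2 := sum_unit e (e' j) (e' j)
    rw [inner_basis, if_pos rfl] at h2
    simp only [hEdef, addT, Finset.sum_add_distrib, ← Finset.mul_sum]
    rw [h2]
    have h3 : ‖e' j‖ = 1 := e'.norm_eq_one j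
    rw [h3] at h1
    linarith
  · have h1 : tt ν = scal e' E := by
      unfold tt scal
      simp only [hEE]
    show tt ν = _
    rw [h1, ← scal_basis e e' hE, hEdef, scal_add, scal_unit]
  · rw [Pool.Agent.W688.HD.bas m V e e' R hR, gbc_eq]
    congr 2
    funext _ i j k l
    have h2 : E (e' i) (e' j) (e' k) (e' l) = ∑ a, nu ν a i j * nu ν a k l := hEν i j k l
    rw [← h2, hEdef, ← cp_unit e']
    simp only [cp, negT, addT]
    ring

/-- **the pointwise inequality, negative version** -/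
theorem point_neg (e : OrthonormalBasis (Fin m × Bool) ℝ V) {R : V → V → V → V → ℝ}
    (hR : AlgCurv R) {c κ : ℝ} (hc : 0 < c) (hm : 3 ≤ m)
    (h : OpNonneg (addT R fun x y z w => c * unitT x y z w))
    (hK : ∀ x : V, ric e R x ≤ -((2 * m - 1) * κ) * ‖x‖ ^ 2) (hx : m * (1 - κ / c) ≤ 8 / 5) :
    roundGB m c * phi m ((2 * m - 1) * (1 - κ / c)) (m + scal e R / (2 * c * (2 * m - 1))) ≤
      (-1) ^ m * gbc e R ∧
    psi m (m * (1 - κ / c)) ≤
      phi m ((2 * m - 1) * (1 - κ / c)) (m + scal e R / (2 * c * (2 * m - 1))) := by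
  obtain ⟨n, ν, hν, hr, hρ, ht, hg⟩ := reduceR e hR h hK
  have hmR : (3 : ℝ) ≤ m := by exact_mod_cast hm
  have d1 : (0 : ℝ) < 2 * m - 1 := by linarith
  have hxc : m * ((2 * m - 1) * (c - κ)) ≤ 8 / 5 * c * (2 * m - 1) := by
    have e1 : m * ((2 * m - 1) * (c - κ)) = (m * (1 - κ / c)) * (c * (2 * m - 1)) := by
      field_simp
    rw [e1]
    have := mul_le_mul_of_nonneg_right hx (mul_pos hc d1).le
    linarith
  have h1 := F_ge_phi hν hr hρ hc hm hxc
  have e1 : (2 * m - 1) * (c - κ) / c = (2 * (m : ℝ) - 1) * (1 - κ / c) := by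
    field_simp
  have e2 : tt (nu ν) / (2 * c * (2 * m - 1)) = m + scal e R / (2 * c * (2 * m - 1)) := by
    rw [ht, add_div, add_comm]
    congr 1
    field_simp
  rw [e1, e2] at h1
  have hπ := Real.pi_pos
  have hC : 0 < 1 / ((8 * Real.pi) ^ m * (m.factorial : ℝ)) := by positivity
  have hround : roundGB m c = 1 / ((8 * Real.pi) ^ m * m.factorial) * TT (nu ν) c 0 := by
    rw [TT_zero]
    unfold roundGB
    have : (8 * Real.pi) ^ m = 2 ^ m * (4 * Real.pi) ^ m := by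
      rw [← mul_pow]; congr 1; ring
    rw [this, mul_pow 2 c m]
    field_simp
  constructor
  · rw [hg, gm_F _ hc.le, hround, mul_assoc]
    exact mul_le_mul_of_nonneg_left h1 hC.le
  · have hy0 : 0 ≤ tt (nu ν) / (2 * c * (2 * m - 1)) := by
      have := tt_nonneg (nu ν)
      positivity
    have hyx : tt (nu ν) / (2 * c * (2 * m - 1)) ≤ m * (1 - κ / c) := by
      rw [div_le_iff₀ (by positivity)]
      have h2 : tt (nu ν) ≤ 2 * m * ((2 * m - 1) * (c - κ)) := by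
        rw [tt_eq]
        refine (Finset.sum_le_sum fun j _ => hρ j).trans (le_of_eq ?_)
        rw [Finset.sum_const, Finset.card_univ, nsmul_eq_mul, card_J]
      refine h2.trans (le_of_eq ?_)
      field_simp
    have h3 := psi_le_phi hmR hx hy0 hyx
    have e3 : (2 * (m : ℝ) - 1) * (m * (1 - κ / c)) / m = (2 * m - 1) * (1 - κ / c) := by
      have : (m : ℝ) ≠ 0 := by linarith
      field_simp
    rw [e3, e2] at h3
    exact h3

theorem ric_neg (e : OrthonormalBasis (Fin m × Bool) ℝ V) (R : V → V → V → V → ℝ) (x : V) :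
    ric e (negT R) x = - ric e R x := by
  unfold ric negT
  rw [Finset.sum_neg_distrib]

/-- **the pointwise inequality, positive version** -/
theorem point_pos (e : OrthonormalBasis (Fin m × Bool) ℝ V) {R : V → V → V → V → ℝ}
    (hR : AlgCurv R) {c κ : ℝ} (hc : 0 < c) (hm : 3 ≤ m)
    (h : OpNonneg (addT (negT R) fun x y z w => c * unitT x y z w))
    (hK : ∀ x : V, (2 * m - 1) * κ * ‖x‖ ^ 2 ≤ ric e R x) (hx : m * (1 - κ / c) ≤ 8 / 5) :
    roundGB m c * phi m ((2 * m - 1) * (1 - κ / c)) (m - scal e R / (2 * c * (2 * m - 1))) ≤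
      gbc e R ∧
    psi m (m * (1 - κ / c)) ≤
      phi m ((2 * m - 1) * (1 - κ / c)) (m - scal e R / (2 * c * (2 * m - 1))) := by
  have h1 := point_neg e (neg_curv hR) hc hm h (fun x => by
    rw [ric_neg]
    have := hK x
    linarith) hx
  rw [gbc_neg, scal_neg] at h1
  have e1 : (m : ℝ) + -scal e R / (2 * c * (2 * m - 1)) =
      m - scal e R / (2 * c * (2 * m - 1)) := by ring
  rw [e1] at h1
  exact h1

end pointwise

end Pool.Agent.TH594.HR
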