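import Pool.Agent.TH594.HE.Rat

/-!
# The traces of a family under an upper Ricci bound
-/

set_option autoImplicit false

namespace Pool.Agent.TH594.HR

open Finset Pool.Agent.TH594.HP Pool.Agent.TH594.HE

section general

variable {J : Type*} [Fintype J] [DecidableEq J] {K : Type*} [Fintype K]

theorem rc_nonneg (ν : K → J → J → ℝ) (j : J) : 0 ≤ rc ν j j := by
  unfold rc EE
  exact Finset.sum_nonneg fun _ _ => Finset.sum_nonneg fun _ _ => mul_self_nonneg _

theorem Ls_le_rho {ν : K → J → J → ℝ} (h : BiN ν) (hr : ∀ j l, j ≠ l → rc ν j l = 0) {ρ : ℝ}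
    (hρ : ∀ j, rc ν j j ≤ ρ) {d : ℕ} {f : Fk J} (hf : Dg d f) :
    Ls ν f ≤ 2 * (ρ * (Fintype.card J - d)) * nn f := by
  have h1 := Ls_le h f
  rw [Rn_diag hr] at h1
  have h2 : 2 * tt ν * nn f - 2 * ∑ j, rc ν j j * nn (an j f) =
      ∑ j, 2 * rc ν j j * nn (cr j f) := by
    rw [tt_eq, Finset.mul_sum, Finset.sum_mul, Finset.mul_sum, ← Finset.sum_sub_distrib]
    refine Finset.sum_congr rfl fun j _ => ?_
    rw [nn_split j f]; ring
  rw [h2] at h1
  have h3 : ∑ j, 2 * rc ν j j * nn (cr j f) ≤ ∑ j, 2 * ρ * nn (cr j f) := by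
    refine Finset.sum_le_sum fun j _ => ?_
    have := nn_nonneg (cr j f)
    have := hρ j
    nlinarith
  rw [← Finset.mul_sum, sum_nn_cr hf] at h3
  linarith

theorem w_succ_rho {ν : K → J → J → ℝ} (h : BiN ν) (hr : ∀ j l, j ≠ l → rc ν j l = 0) {ρ : ℝ}
    (hρ : ∀ j, rc ν j j ≤ ρ) (j : ℕ) :
    w ν (j + 1) ≤ 2 * (ρ * (Fintype.card J - 2 * j)) * w ν j := by
  unfold w
  rw [pow_succ, Module.End.mul_apply]
  have h1 := O1_mono_dg ν j 0 (O1 ν nn)
    ((2 * (ρ * (Fintype.card J - 2 * j))) • nn) (fun f hf => by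
      rw [O1_nn, Pi.smul_apply, smul_eq_mul]
      have := Ls_le_rho h hr hρ hf
      push_cast at this
      rw [zero_add] at this
      exact this) vac Dg_vac
  rw [map_smul, Pi.smul_apply, smul_eq_mul] at h1
  exact h1

theorem sum_sp {ν : K → Matrix J J ℝ} : 2 * ∑ a, sp (ν a) (ν a) = tt (nu ν) := by
  rw [Finset.mul_sum]
  unfold tt EE nu sp
  have e1 : ∀ G : K → J → J → ℝ, ∑ k, ∑ l, ∑ a, G a k l = ∑ a, ∑ k, ∑ l, G a k l := by
    intro G
    symm
    rw [Finset.sum_comm]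
    exact Finset.sum_congr rfl fun k _ => Finset.sum_comm
  rw [e1]
  refine Finset.sum_congr rfl fun a _ => ?_
  ring

theorem nn_cv_vac (x : J → ℝ) : nn (cv x (vac : Fk J)) = dt x x := by
  have h := nn_q x (vac : Fk J)
  rw [av_vac, nn_vac] at h
  have h0 : nn (0 : Fk J) = 0 := ip_zero_left _
  rw [h0] at h
  linarith

/-- the second trace in a basis diagonalising the Ricci form -/
theorem w2_gen {ν : K → Matrix J J ℝ} (h : BiN (nu ν))
    (hr : ∀ j l, j ≠ l → rc (nu ν) j l = 0) :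
    w (nu ν) 2 = 4 * tt (nu ν) ^ 2 - 16 * ∑ j, rc (nu ν) j j ^ 2 +
      16 * ∑ a, ∑ b, sp (ν b) (ν a) ^ 2 := by
  have hs : ∀ a, Sk (ν a) := fun a i j => h.anti a i j
  rw [w_two']
  have h1 : ∀ a, Ls (nu ν) (LM (ν a) (vac : Fk J)) =
      8 * tt (nu ν) * sp (ν a) (ν a) - 16 * ∑ j, rc (nu ν) j j * dt (ν a j) (ν a j) +
        16 * ∑ b, sp (ν b) (ν a) ^ 2 := by
    intro a
    rw [Ls_eq h.anti, nn_two (hs a), Rn_diag hr, An_two ν hs (hs a)]
    have e1 : ∀ j, nn (an j (LM (ν a) (vac : Fk J))) = 4 * dt (ν a j) (ν a j) := by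
      intro j
      rw [an_LM (hs a), an_vac, map_zero, zero_add, nn_sm, nn_cv_vac]
      norm_num
    simp only [e1]
    have e2 : ∑ j, rc (nu ν) j j * (4 * dt (ν a j) (ν a j)) =
        4 * ∑ j, rc (nu ν) j j * dt (ν a j) (ν a j) := by
      rw [Finset.mul_sum]
      exact Finset.sum_congr rfl fun j _ => by ring
    rw [e2]; ring
  simp only [h1, Finset.sum_add_distrib, Finset.sum_sub_distrib, ← Finset.mul_sum]
  have h2 : ∑ a, ∑ j, rc (nu ν) j j * dt (ν a j) (ν a j) = ∑ j, rc (nu ν) j j ^ 2 := by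
    rw [Finset.sum_comm]
    refine Finset.sum_congr rfl fun j _ => ?_
    rw [← Finset.mul_sum, pow_two]
    congr 1
    unfold rc EE dt
    rw [Finset.sum_comm]
    refine Finset.sum_congr rfl fun a _ => Finset.sum_congr rfl fun l _ => ?_
    rw [h.anti l j a]
    show ν l j a * ν l j a = _
    unfold nu
    ring
  rw [h2, ← sum_sp]
  ring

/-- the Hilbert-Schmidt norm and the diagonal entries -/
theorem hs_ge {ν : K → Matrix J J ℝ} (h : BiN (nu ν)) :
    1 / 2 * ∑ i, ∑ j, EE (nu ν) i j i j ^ 2 ≤ ∑ a, ∑ b, sp (ν b) (ν a) ^ 2 := by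
  have h1 : ∑ a, ∑ b, sp (ν b) (ν a) ^ 2 =
      1 / 4 * ∑ i, ∑ j, ∑ k, ∑ l, EE (nu ν) i j k l ^ 2 := by
    have e1 : ∀ a b, sp (ν b) (ν a) ^ 2 =
        ∑ i, ∑ j, ∑ k, ∑ l, 1 / 4 * ((ν b i j * ν b k l) * (ν a i j * ν a k l)) := by
      intro a b
      unfold sp
      rw [pow_two]
      have e2 : ∀ X : ℝ, 1 / 2 * X * (1 / 2 * X) = 1 / 4 * (X * X) := fun X => by ring
      rw [e2, Finset.sum_mul, Finset.mul_sum]
      refine Finset.sum_congr rfl fun i _ => ?_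
      rw [Finset.sum_mul, Finset.mul_sum]
      refine Finset.sum_congr rfl fun j _ => ?_
      rw [Finset.mul_sum, Finset.mul_sum]
      refine Finset.sum_congr rfl fun k _ => ?_
      rw [Finset.mul_sum, Finset.mul_sum]
      refine Finset.sum_congr rfl fun l _ => ?_
      ring
    simp only [e1]
    have e3 : ∀ G : K → K → J → J → J → J → ℝ, ∑ a, ∑ b, ∑ i, ∑ j, ∑ k, ∑ l, G a b i j k l =
        ∑ i, ∑ j, ∑ k, ∑ l, ∑ a, ∑ b, G a b i j k l := by
      intro G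
      have c1 : ∀ (H : K → K → J → ℝ), ∑ a, ∑ b, ∑ i, H a b i = ∑ i, ∑ a, ∑ b, H a b i := by
        intro H
        have s1 : ∑ a, ∑ b, ∑ i, H a b i = ∑ a, ∑ i, ∑ b, H a b i :=
          Finset.sum_congr rfl fun a _ => Finset.sum_comm
        rw [s1, Finset.sum_comm]
      rw [c1]
      refine Finset.sum_congr rfl fun i _ => ?_
      rw [c1]
      refine Finset.sum_congr rfl fun j _ => ?_
      rw [c1]
      refine Finset.sum_congr rfl fun k _ => ?_
      rw [c1]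
    rw [e3, Finset.mul_sum]
    refine Finset.sum_congr rfl fun i _ => ?_
    rw [Finset.mul_sum]
    refine Finset.sum_congr rfl fun j _ => ?_
    rw [Finset.mul_sum]
    refine Finset.sum_congr rfl fun k _ => ?_
    rw [Finset.mul_sum]
    refine Finset.sum_congr rfl fun l _ => ?_
    unfold EE nu
    rw [pow_two, Finset.sum_mul_sum, Finset.mul_sum]
    refine Finset.sum_congr rfl fun a _ => ?_
    rw [Finset.mul_sum]
    refine Finset.sum_congr rfl fun b _ => ?_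
    ring
  rw [h1]
  have h2 : ∀ i j, 2 * EE (nu ν) i j i j ^ 2 ≤ ∑ k, ∑ l, EE (nu ν) i j k l ^ 2 := by
    intro i j
    by_cases hij : i = j
    · subst hij
      have : EE (nu ν) i i i i = 0 := EE_diag h.anti i i i
      rw [this]
      have : 0 ≤ ∑ k, ∑ l, EE (nu ν) i i k l ^ 2 :=
        Finset.sum_nonneg fun _ _ => Finset.sum_nonneg fun _ _ => sq_nonneg _
      simpa using this
    · have e1 : EE (nu ν) i j i j ^ 2 ≤ ∑ l, EE (nu ν) i j i l ^ 2 :=
        Finset.single_le_sum (f := fun l => EE (nu ν) i j i l ^ 2) (fun _ _ => sq_nonneg _)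
          (Finset.mem_univ j)
      have e2 : EE (nu ν) i j j i ^ 2 ≤ ∑ l, EE (nu ν) i j j l ^ 2 :=
        Finset.single_le_sum (f := fun l => EE (nu ν) i j j l ^ 2) (fun _ _ => sq_nonneg _)
          (Finset.mem_univ i)
      have e3 : ∑ l, EE (nu ν) i j i l ^ 2 + ∑ l, EE (nu ν) i j j l ^ 2 ≤
          ∑ k, ∑ l, EE (nu ν) i j k l ^ 2 := by
        rw [← Finset.sum_pair (f := fun k => ∑ l, EE (nu ν) i j k l ^ 2) hij]
        exact Finset.sum_le_sum_of_subset_of_nonneg (Finset.subset_univ _)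
          (fun _ _ _ => Finset.sum_nonneg fun _ _ => sq_nonneg _)
      have e4 : EE (nu ν) i j j i = -EE (nu ν) i j i j := EE_34 h.anti i j i j
      rw [e4] at e2
      nlinarith
  have h3 : ∑ i, ∑ j, 2 * EE (nu ν) i j i j ^ 2 ≤ ∑ i, ∑ j, ∑ k, ∑ l, EE (nu ν) i j k l ^ 2 :=
    Finset.sum_le_sum fun i _ => Finset.sum_le_sum fun j _ => h2 i j
  simp only [← Finset.mul_sum] at h3
  linarith

/-- the diagonal entries and the Ricci tensor -/
theorem diag_ge {ν : K → J → J → ℝ} (h : ∀ a i j, ν a j i = - ν a i j) (p : J → ℝ) :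
    2 * ∑ i, p i * rc ν i i - ((Fintype.card J : ℝ) - 2) * ∑ i, p i ^ 2 - (∑ i, p i) ^ 2 ≤
      1 / 2 * ∑ i, ∑ j, EE ν i j i j ^ 2 := by
  have h1 : ∀ i j, 2 * ((p i + p j) * EE ν i j i j) -
      (p i + p j) ^ 2 * (if i = j then 0 else 1) ≤ EE ν i j i j ^ 2 := by
    intro i j
    by_cases hij : i = j
    · subst hij
      rw [EE_diag h]
      simp
    · rw [if_neg hij]
      nlinarith [sq_nonneg (EE ν i j i j - (p i + p j))]
  have h2 := Finset.sum_le_sum fun i (_ : i ∈ (Finset.univ : Finset J)) =>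
    Finset.sum_le_sum fun j (_ : j ∈ (Finset.univ : Finset J)) => h1 i j
  have r1 : ∀ i, ∑ j, EE ν i j i j = rc ν i i := by
    intro i
    unfold rc
    refine Finset.sum_congr rfl fun l _ => ?_
    rw [EE_12 h l i, EE_34 h l i l i, neg_neg]
  have r2 : ∀ j, ∑ i, EE ν i j i j = rc ν j j := fun j => rfl
  have h3 : ∑ i, ∑ j, 2 * ((p i + p j) * EE ν i j i j) = 4 * ∑ i, p i * rc ν i i := by
    have e1 : ∀ i j, 2 * ((p i + p j) * EE ν i j i j) =
        2 * (p i * EE ν i j i j) + 2 * (p j * EE ν i j i j) := fun i j => by ring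
    simp only [e1, Finset.sum_add_distrib, ← Finset.mul_sum, r1]
    rw [Finset.sum_comm (f := fun i j => p j * EE ν i j i j)]
    simp only [← Finset.mul_sum, r2]
    ring
  have h4 : ∑ i, ∑ j, (p i + p j) ^ 2 * (if i = j then (0 : ℝ) else 1) =
      2 * (((Fintype.card J : ℝ) - 2) * ∑ i, p i ^ 2 + (∑ i, p i) ^ 2) := by
    have e1 : ∀ i j, (p i + p j) ^ 2 * (if i = j then (0 : ℝ) else 1) =
        (p i + p j) ^ 2 - (if i = j then (p i + p j) ^ 2 else 0) := by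
      intro i j
      split_ifs <;> ring
    simp only [e1, Finset.sum_sub_distrib, Finset.sum_ite_eq, Finset.mem_univ, if_true]
    have e2 : ∀ i j, (p i + p j) ^ 2 = p i ^ 2 + 2 * (p i * p j) + p j ^ 2 := fun i j => by ring
    simp only [e2, Finset.sum_add_distrib, Finset.sum_const, Finset.card_univ, nsmul_eq_mul,
      ← Finset.mul_sum, ← Finset.sum_mul]
    rw [pow_two (∑ i, p i)]
    have e3 : ∀ i, p i * p i = p i ^ 2 := fun i => by ring
    simp only [e3]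
    ring
  simp only [Finset.sum_sub_distrib] at h2
  rw [h3, h4] at h2
  linarith

end general

section real

theorem ra1 {d S : ℝ} (h1 : d ≠ 0) (h2 : d - 1 ≠ 0) :
    (S - (d + 1) * (S / (2 * d))) / (d - 1) = S / (2 * d) := by
  field_simp
  ring

theorem ra2 {d S : ℝ} (h1 : d ≠ 0) : 2 * (S / (2 * d)) * S = S ^ 2 / d := by
  field_simp

theorem ra3 {d S Q : ℝ} (h1 : d ≠ 0) (h2 : d - 1 ≠ 0) :
    2 * ((Q - S ^ 2 / (2 * d)) / (d - 1)) -
      ((d + 1) - 2) * ((Q - S ^ 2 / d + (d + 1) * (S / (2 * d)) ^ 2) / (d - 1) ^ 2) -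
      (S / (2 * d)) ^ 2 = Q / (d - 1) - S ^ 2 / (2 * (d * (d - 1))) := by
  field_simp
  ring

theorem ra4 {d S Q : ℝ} (h1 : d ≠ 0) (h2 : d - 1 ≠ 0) :
    d * (d - 1) * (Q / (d - 1) - S ^ 2 / (2 * (d * (d - 1)))) = d * Q - S ^ 2 / 2 := by
  field_simp

end real

section dim

variable {m : ℕ} {K : Type*} [Fintype K] {ν : K → Matrix (Fin m × Bool) (Fin m × Bool) ℝ}

/-- lower bound of the second trace -/
theorem w2_low (h : BiN (nu ν)) (hr : ∀ j l, j ≠ l → rc (nu ν) j l = 0) {ρ : ℝ}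
    (hρ : ∀ j, rc (nu ν) j j ≤ ρ) (hm : 3 ≤ m) :
    4 * (2 * m - 3) * tt (nu ν) * (m * tt (nu ν) - 2 * (2 * m - 1) * ρ) ≤
      (m - 1) * (2 * m - 1) * w (nu ν) 2 := by
  have hmR : (3 : ℝ) ≤ m := by exact_mod_cast hm
  rw [w2_gen h hr]
  set S := tt (nu ν) with hS
  set Q := ∑ j, rc (nu ν) j j ^ 2 with hQ
  have hSr : ∑ j, rc (nu ν) j j = S := by rw [hS, tt_eq]
  have hQS : Q ≤ ρ * S := by
    rw [hQ, ← hSr, Finset.mul_sum]
    refine Finset.sum_le_sum fun j _ => ?_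
    have h1 := hρ j
    have h2 := rc_nonneg (nu ν) j
    nlinarith
  have h1 := hs_ge h
  obtain ⟨d, hd⟩ : ∃ d : ℝ, d = 2 * m - 1 := ⟨_, rfl⟩
  have hm2 : (2 * m : ℝ) = d + 1 := by rw [hd]; ring
  have d1 : 0 < d := by rw [hd]; linarith
  have d2 : 0 < d - 1 := by rw [hd]; linarith
  have h2 := diag_ge h.anti (fun j => (rc (nu ν) j j - S / (2 * d)) / (d - 1))
  have hc : (Fintype.card (Fin m × Bool) : ℝ) = d + 1 := by rw [card_J, hm2]
  rw [hc] at h2
  have s1 : ∑ j : Fin m × Bool, (rc (nu ν) j j - S / (2 * d)) / (d - 1) = S / (2 * d) := by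
    rw [← Finset.sum_div, Finset.sum_sub_distrib, hSr, Finset.sum_const, Finset.card_univ,
      nsmul_eq_mul, hc]
    exact ra1 d1.ne' d2.ne'
  have s2 : ∑ j : Fin m × Bool, (rc (nu ν) j j - S / (2 * d)) / (d - 1) *
      rc (nu ν) j j = (Q - S ^ 2 / (2 * d)) / (d - 1) := by
    have e : ∀ j : Fin m × Bool, (rc (nu ν) j j - S / (2 * d)) / (d - 1) *
        rc (nu ν) j j = (rc (nu ν) j j ^ 2 - S / (2 * d) * rc (nu ν) j j) /
          (d - 1) := fun j => by ring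
    simp only [e]
    rw [← Finset.sum_div, Finset.sum_sub_distrib, ← Finset.mul_sum, hSr]
    congr 1
    ring
  have s3 : ∑ j : Fin m × Bool, ((rc (nu ν) j j - S / (2 * d)) / (d - 1)) ^ 2 =
      (Q - S ^ 2 / d + (d + 1) * (S / (2 * d)) ^ 2) / (d - 1) ^ 2 := by
    have e : ∀ j : Fin m × Bool, ((rc (nu ν) j j - S / (2 * d)) / (d - 1)) ^ 2 =
        (rc (nu ν) j j ^ 2 - 2 * (S / (2 * d)) * rc (nu ν) j j +
          (S / (2 * d)) ^ 2) / (d - 1) ^ 2 := fun j => by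
      rw [div_pow]
      congr 1
      ring
    simp only [e]
    rw [← Finset.sum_div, Finset.sum_add_distrib, Finset.sum_sub_distrib, ← Finset.mul_sum, hSr,
      Finset.sum_const, Finset.card_univ, nsmul_eq_mul, hc, ra2 d1.ne']
  rw [s1, s2, s3, ra3 d1.ne' d2.ne'] at h2
  have h3 := h2.trans h1
  set H := ∑ a, ∑ b, sp (ν b) (ν a) ^ 2
  have h4 : d * Q - S ^ 2 / 2 ≤ d * (d - 1) * H := by
    have := mul_le_mul_of_nonneg_left h3 (mul_pos d1 d2).le
    rw [ra4 d1.ne' d2.ne'] at this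
    exact this
  have h5 : (d - 2) * d * Q ≤ (d - 2) * d * (ρ * S) :=
    mul_le_mul_of_nonneg_left hQS (mul_nonneg (by rw [hd]; linarith) d1.le)
  have hmd : (m : ℝ) = (d + 1) / 2 := by linarith
  rw [hmd]
  nlinarith

end dim

end Pool.Agent.TH594.HR
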